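import Pool.Agent.H789R2.AN.Tr
import Pool.Agent.H721R2.Build

set_option autoImplicit false

open Filter Topology Set Metric

namespace Pool.Agent.W5h13.LS

open Pool.Agent.H789R2.AN Pool.Agent.H721R2

variable {X : Type*} [MetricSpace X]

/-- Saturated by unstable sets. -/
def Sat (g : X ≃ₜ X) (A : Set X) : Prop := ∀ x ∈ A, ∀ y, WS g.symm x y → y ∈ A

/-- The unstable leaf. -/
def L (g : X ≃ₜ X) (x : X) : Set X := {y | WS g.symm x y}

theorem mem_L (g : X ≃ₜ X) (x : X) : x ∈ L g x := WS.refl _ _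

theorem sat_L (g : X ≃ₜ X) (x : X) : Sat g (L g x) := fun _ hy _ hz => WS.trans hy hz

theorem Sat.L_subset {g : X ≃ₜ X} {A : Set X} (h : Sat g A) {x : X} (hx : x ∈ A) : L g x ⊆ A :=
  fun y hy => h x hx y hy

theorem sat_cl {g : X ≃ₜ X} {c : ℝ} (h : LP g c) {A : Set X} (hA : Sat g A) :
    Sat g (closure A) := closure_sat h hA

theorem near' {g : X ≃ₜ X} {c : ℝ} (h : LP g c) : ∃ δ > 0, ∀ A, Sat g A → ∀ x ∈ A, ∀ y,
    dist y x < δ → ∃ z ∈ A, SR g c y z := by
  obtain ⟨δ, hδ, h1⟩ := h.lp c h.c_pos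
  refine ⟨δ, hδ, fun A hA x hx y hxy => ?_⟩
  obtain ⟨z, h2, h3⟩ := h1 y x hxy
  exact ⟨z, hA x hx z (WS.of_SR (h.cU _ _ h3)), h2⟩

theorem tendsto_c (c : ℝ) : Tendsto (fun n : ℕ => c * (1 / 2 : ℝ) ^ n) atTop (𝓝 0) := by
  have := (tendsto_pow_atTop_nhds_zero_of_lt_one (by norm_num : (0:ℝ) ≤ 1 / 2)
    (by norm_num)).const_mul c
  simpa using this

/-- Points whose backward orbits are close infinitely often: one is in the leaf closure of the
other. -/
theorem mem_cl_of_freq {g : X ≃ₜ X} {c : ℝ} (h : LP g c) {δ : ℝ}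
    (hδ : ∀ A, Sat g A → ∀ x ∈ A, ∀ y, dist y x < δ → ∃ z ∈ A, SR g c y z) {x y : X}
    (hxy : ∃ᶠ n in atTop, dist (g.symm^[n] x) (g.symm^[n] y) < δ) : x ∈ closure (L g y) := by
  rw [Metric.mem_closure_iff]
  intro ε hε
  obtain ⟨n, hn1, hn2⟩ := (hxy.and_eventually ((tendsto_order.mp (tendsto_c c)).2 ε hε)).exists
  obtain ⟨z, hz, hz2⟩ := hδ (L g (g.symm^[n] y)) (sat_L _ _) _ (mem_L _ _) _ hn1
  have h3 := h.cS _ _ hz2 n
  rw [iterR] at h3
  refine ⟨g^[n] z, ?_, lt_of_le_of_lt h3 hn2⟩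
  show WS g.symm y (g^[n] z)
  rw [← WS.iter n, iterL]
  exact hz

/-- **Finitely many leaf closures.** -/
theorem finite_cl [CompactSpace X] {g : X ≃ₜ X} {c : ℝ} (h : LP g c) :
    (range fun x => closure (L g x)).Finite := by
  classical
  obtain ⟨δ, hδ, hnear⟩ := near' h
  -- limits of backward orbits along an ultrafilter
  have hlim : ∀ x, ∃ l, Tendsto (fun n : ℕ => g.symm^[n] x) (hyperfilter ℕ) (𝓝 l) := by
    intro x
    obtain ⟨l, -, hl⟩ := isCompact_univ.ultrafilter_le_nhds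
      ((hyperfilter ℕ : Ultrafilter ℕ).map fun n : ℕ => g.symm^[n] x) (by simp)
    exact ⟨l, hl⟩
  choose l hl using hlim
  obtain ⟨t, -, ht, hcov⟩ := isCompact_univ.finite_cover_balls (X := X) (half_pos (half_pos hδ))
  have hcell : ∀ x, ∃ p ∈ t, dist (l x) p < δ / 2 / 2 := by
    intro x
    have := hcov (mem_univ (l x))
    simpa using this
  choose κ hκt hκ using hcell
  have hkey : ∀ x y, κ x = κ y → closure (L g x) = closure (L g y) := by
    intro x y hxy
    have h1 : dist (l x) (l y) < δ / 2 := by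
      have h2 := hκ x
      have h3 := hκ y
      rw [← hxy, dist_comm] at h3
      have := dist_triangle (l x) (κ x) (l y)
      linarith
    have h2 : Tendsto (fun n : ℕ => dist (g.symm^[n] x) (g.symm^[n] y)) (hyperfilter ℕ)
        (𝓝 (dist (l x) (l y))) := (hl x).dist (hl y)
    have h3 : ∀ᶠ n in (hyperfilter ℕ : Filter ℕ), dist (g.symm^[n] x) (g.symm^[n] y) < δ :=
      (tendsto_order.mp h2).2 δ (by linarith)
    have h4 : ∃ᶠ n in atTop, dist (g.symm^[n] x) (g.symm^[n] y) < δ := by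
      have h5 : (hyperfilter ℕ : Filter ℕ) ≤ atTop := by
        rw [← Nat.cofinite_eq_atTop]
        exact hyperfilter_le_cofinite
      exact h3.frequently.filter_mono h5
    apply Subset.antisymm
    · refine closure_minimal ((sat_cl h (sat_L g y)).L_subset ?_) isClosed_closure
      exact mem_cl_of_freq h hnear h4
    · refine closure_minimal ((sat_cl h (sat_L g x)).L_subset ?_) isClosed_closure
      exact mem_cl_of_freq h hnear (by simpa only [dist_comm] using h4)
  have hsub : (range fun x => closure (L g x)) ⊆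
      (fun p => if hp : ∃ x, κ x = p then closure (L g hp.choose) else ∅) '' t := by
    rintro _ ⟨x, rfl⟩
    refine ⟨κ x, hκt x, ?_⟩
    have hp : ∃ x', κ x' = κ x := ⟨x, rfl⟩
    show (if hp : ∃ x', κ x' = κ x then closure (L g hp.choose) else ∅) = _
    rw [dif_pos hp]
    exact hkey _ _ hp.choose_spec
  exact (ht.image _).subset hsub

theorem eq_sUnion_cl {g : X ≃ₜ X} {A : Set X} (hA : IsClosed A) (hs : Sat g A) :
    A = ⋃₀ ((fun x => closure (L g x)) '' A) := by
  apply Subset.antisymm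
  · intro x hx
    exact ⟨_, ⟨x, hx, rfl⟩, subset_closure (mem_L g x)⟩
  · rintro y ⟨_, ⟨x, hx, rfl⟩, hy⟩
    exact closure_minimal (hs.L_subset hx) hA hy

/-- **Finitely many closed saturated sets.** -/
theorem finite_sat [CompactSpace X] {g : X ≃ₜ X} {c : ℝ} (h : LP g c) :
    {A : Set X | IsClosed A ∧ Sat g A}.Finite := by
  refine ((finite_cl h).finite_subsets.image sUnion).subset ?_
  rintro A ⟨hA, hs⟩
  exact ⟨_, image_subset_range _ _, (eq_sUnion_cl hA hs).symm⟩

/-- A homeomorphism permuting the unstable leaves has a power which fixes all closed saturated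
sets. -/
theorem exists_power [CompactSpace X] {g φ : X ≃ₜ X} {c : ℝ} (h : LP g c)
    (hφ : ∀ x y, WS g.symm x y → WS g.symm (φ x) (φ y)) :
    ∃ p ≥ 1, ∀ A, IsClosed A → Sat g A → ∀ x, φ^[p] x ∈ A ↔ x ∈ A := by
  have hfin := (finite_sat h).to_subtype
  let F : {A : Set X | IsClosed A ∧ Sat g A} → {A : Set X | IsClosed A ∧ Sat g A} := fun A =>
    ⟨φ ⁻¹' A.1, A.2.1.preimage φ.continuous, fun x hx y hy => A.2.2 _ hx _ (hφ _ _ hy)⟩
  have hinj : Function.Injective F := by
    intro A B hAB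
    have h1 : φ ⁻¹' A.1 = φ ⁻¹' B.1 := congrArg Subtype.val hAB
    exact Subtype.ext ((preimage_injective.mpr φ.surjective) h1)
  let σ : Equiv.Perm {A : Set X | IsClosed A ∧ Sat g A} :=
    Equiv.ofBijective F (Finite.injective_iff_bijective.mp hinj)
  obtain ⟨p, hp, hσ⟩ := (isOfFinOrder_iff_pow_eq_one).mp (isOfFinOrder_of_finite σ)
  refine ⟨p, hp, fun A hA hs x => ?_⟩
  have hit : ∀ (n : ℕ) (B : {A : Set X | IsClosed A ∧ Sat g A}), ((σ ^ n) B).1 = φ^[n] ⁻¹' B.1 := by
    intro n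
    induction n with
    | zero => intro B; rfl
    | succ n ih =>
      intro B
      rw [pow_succ', Equiv.Perm.mul_apply]
      show φ ⁻¹' ((σ ^ n) B).1 = _
      rw [ih B, ← preimage_comp]
      congr 1
  have h2 := hit p ⟨A, hA, hs⟩
  rw [hσ] at h2
  have h3 : A = φ^[p] ⁻¹' A := h2
  constructor
  · intro hx
    rw [h3]; exact hx
  · intro hx
    rw [h3] at hx; exact hx

end Pool.Agent.W5h13.LS
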