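import Pool.Agent.W5h13.LS.B4

set_option autoImplicit false
set_option linter.unusedSectionVars false

open scoped Manifold ContDiff Topology Bundle
open Set Filter Bundle

namespace Pool.Agent.W5h13.LS

open Pool.Agent.H789R2.AN Pool.Agent.H721R2

variable {E₀ : Type*} [NormedAddCommGroup E₀] [NormedSpace ℝ E₀] [FiniteDimensional ℝ E₀]
  {M : Type*} [MetricSpace M] [CompactSpace M] [ChartedSpace E₀ M] [IsManifold 𝓘(ℝ, E₀) 1 M]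
  {F : Type*} [NormedAddCommGroup F] [NormedSpace ℝ F]

/-- unstable version -/
theorem Good.leaf_u {e : M → F} (hiso : ∀ x y, dist x y = ‖e x - e y‖)
    (he : ContMDiff 𝓘(ℝ, E₀) 𝓘(ℝ, F) 1 e) (hinj : ∀ x, Function.Injective (dm E₀ e x))
    {f₁ : M ≃ₜ M} {Es₁ Eu₁ : M → Submodule ℝ E₀} {N : ℕ} {S : HypSys M F} {c : ℝ}
    (hG : Good e f₁ Es₁ Eu₁ N S c) {C₁ a₁ b₁ Ls₁ Lu₁ : ℝ}
    (h₁ : EAnosov e f₁ Es₁ Eu₁ C₁ a₁ b₁ Ls₁ Lu₁)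
    {f₂ : M ≃ₜ M} {Es₂ Eu₂ : M → Submodule ℝ E₀} {C a b Ls Lu : ℝ}
    (h₂ : EAnosov e f₂ Es₂ Eu₂ C a b Ls Lu) (ψ : M → M) (hψ : ContMDiff 𝓘(ℝ, E₀) 𝓘(ℝ, E₀) 1 ψ)
    (hψV : ∀ x, ∀ v ∈ Eu₁ x, dg E₀ ψ x v ∈ Eu₂ (ψ x)) {x y : M} (hxy : WS f₁.symm x y) :
    WS f₂.symm (ψ x) (ψ y) :=
  leaf_map hiso he hinj S hG.emb h₁ hG.one_le hG.g hG.Vu h₂ ψ hψ hψV hxy

/-- stable version -/
theorem Good.leaf_s {e : M → F} (hiso : ∀ x y, dist x y = ‖e x - e y‖)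
    (he : ContMDiff 𝓘(ℝ, E₀) 𝓘(ℝ, F) 1 e) (hinj : ∀ x, Function.Injective (dm E₀ e x))
    {f₁ : M ≃ₜ M} {Es₁ Eu₁ : M → Submodule ℝ E₀} {N : ℕ} {S : HypSys M F} {c : ℝ}
    (hG : Good e f₁ Es₁ Eu₁ N S c) {C₁ a₁ b₁ Ls₁ Lu₁ : ℝ}
    (h₁ : EAnosov e f₁ Es₁ Eu₁ C₁ a₁ b₁ Ls₁ Lu₁)
    {f₂ : M ≃ₜ M} {Es₂ Eu₂ : M → Submodule ℝ E₀} {C a b Ls Lu : ℝ}
    (h₂ : EAnosov e f₂ Es₂ Eu₂ C a b Ls Lu) (ψ : M → M) (hψ : ContMDiff 𝓘(ℝ, E₀) 𝓘(ℝ, E₀) 1 ψ)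
    (hψV : ∀ x, ∀ v ∈ Es₁ x, dg E₀ ψ x v ∈ Es₂ (ψ x)) {x y : M} (hxy : WS f₁ x y) :
    WS f₂ (ψ x) (ψ y) :=
  leaf_map hiso he hinj S.symm hG.emb h₁.symm hG.one_le (by
    show S.g.symm = _
    rw [hG.g, iterHomeo_symm]) hG.Vs h₂.symm ψ hψ hψV hxy

/-- The edge of the chain. -/
theorem edge {e : M → F} (hiso : ∀ x y, dist x y = ‖e x - e y‖)
    (he : ContMDiff 𝓘(ℝ, E₀) 𝓘(ℝ, F) 1 e) (hinj : ∀ x, Function.Injective (dm E₀ e x))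
    {f₁ : M ≃ₜ M} {Es₁ Eu₁ : M → Submodule ℝ E₀} {N : ℕ} {S : HypSys M F} {c : ℝ}
    (hG : Good e f₁ Es₁ Eu₁ N S c) {C₁ a₁ b₁ Ls₁ Lu₁ : ℝ}
    (h₁ : EAnosov e f₁ Es₁ Eu₁ C₁ a₁ b₁ Ls₁ Lu₁)
    {f₂ : M ≃ₜ M} {Es₂ Eu₂ : M → Submodule ℝ E₀} {C a b Ls Lu : ℝ}
    (h₂ : EAnosov e f₂ Es₂ Eu₂ C a b Ls Lu) (hle : ∀ x, Eu₁ x ≤ Eu₂ x)
    (hs : ∀ x, ∀ v ∈ Es₁ x, dg E₀ f₂ x v ∈ Es₁ (f₂ x))
    (hu : ∀ x, ∀ v ∈ Eu₁ x, dg E₀ f₂ x v ∈ Eu₁ (f₂ x)) {A : Set M} (hA : IsClosed A) :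
    Sat f₁ A ↔ Sat f₂ A := by
  have hid : ∀ x y, WS f₁.symm x y → WS f₂.symm x y := by
    intro x y hxy
    refine hG.leaf_u hiso he hinj h₁ h₂ id contMDiff_id (fun z v hv => ?_) hxy
    have : dg E₀ id z v = v := by
      show mfderiv 𝓘(ℝ, E₀) 𝓘(ℝ, E₀) id z v = v
      rw [mfderiv_id]; rfl
    rw [this]
    exact hle z hv
  constructor
  · intro hsat
    rcases A.eq_empty_or_nonempty with rfl | hne
    · intro x hx; exact absurd hx (notMem_empty x)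
    have hatt := hG.att hA hne hsat
    have hpu : ∀ x y, WS f₁.symm x y → WS f₁.symm (f₂ x) (f₂ y) := fun x y hxy =>
      hG.leaf_u hiso he hinj h₁ h₁ f₂ h₂.smooth hu hxy
    have hps : ∀ x y, WS f₁ x y → WS f₁ (f₂ x) (f₂ y) := fun x y hxy =>
      hG.leaf_s hiso he hinj h₁ h₁ f₂ h₂.smooth hs hxy
    have hpsn : ∀ (n : ℕ) x y, WS f₁ x y → WS f₁ (f₂^[n] x) (f₂^[n] y) := by
      intro n
      induction n with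
      | zero => intro x y h; exact h
      | succ n ih =>
        intro x y h
        rw [Function.iterate_succ_apply', Function.iterate_succ_apply']
        exact hps _ _ (ih x y h)
    obtain ⟨p, hp, hpf⟩ := exists_power hG.lp (φ := f₂) (by
      intro x y hxy
      rw [hG.ws_u] at hxy ⊢
      exact hpu x y hxy)
    have hAp := hpf A hA ((hG.sat_u A).mpr hsat)
    have hAp' : ∀ x, (iterHomeo f₂ p) x ∈ A ↔ x ∈ A := hAp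
    have key := theoremA' (φ := (iterHomeo f₂ p).symm) hG.lp (by
      intro x y hxy
      rw [hG.ws_s] at hxy ⊢
      have h3 := hpsn p _ _ hxy
      have h4 : ∀ z, f₂^[p] ((iterHomeo f₂ p).symm z) = z := fun z =>
        (iterHomeo f₂ p).apply_symm_apply z
      rwa [h4, h4] at h3) (by
      intro x y hxy
      rw [hG.ws_u] at hxy
      rw [ws_symm_iter f₂ hp]
      exact hid x y hxy) hatt (inv_symm hAp')
    intro x hx y hxy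
    exact key x hx y ((ws_symm_iter f₂ hp x y).mpr hxy)
  · intro hsat x hx y hxy
    exact hsat x hx y (hid x y hxy)

end Pool.Agent.W5h13.LS
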