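import Pool.Agent.W5h13.LS.C1
import Pool.Agent.W5h13.LS.Def

set_option autoImplicit false
set_option linter.unusedSectionVars false

open scoped Topology
open Set Filter

namespace Pool.Agent.W5h13.LS

open Pool.Agent.H789R2.AN Pool.Agent.H721R2 Pool.Agent.TH289

section met

variable {X : Type*} [MetricSpace X] [CompactSpace X]

theorem asym_iff (f : X ≃ₜ X) (x y : X) : Asym f x y ↔ WS f x y := by
  unfold Asym WS
  rw [nhdsSet_diagonal_eq_uniformity, tendsto_uniformity_iff_dist_tendsto_zero]

theorem leaf_eq (f : X ≃ₜ X) (x : X) : Leaf f.symm x = L f x := by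
  ext y
  exact asym_iff f.symm x y

theorem leaf_eq' (f : X ≃ₜ X) (x : X) : Leaf f x = L f.symm x := by
  ext y
  exact asym_iff f x y

/-- the quotient map -/
abbrev pr (f : X ≃ₜ X) : X → LeafSpace f.symm := Quot.mk _

theorem ws_of_eqvGen {f : X ≃ₜ X} (x y : X) (h1 : Relation.EqvGen (Asym f.symm) x y) :
    WS f.symm x y := by
  induction h1 with
  | rel x y h => exact (asym_iff f.symm x y).mp h
  | refl x => exact WS.refl _ _
  | symm x y _ ih => exact ih.symm'
  | trans x y z h1 h2 ih1 ih2 => exact ih1.trans ih2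

theorem ws_of_pr_eq {f : X ≃ₜ X} {x y : X} (h : pr f x = pr f y) : WS f.symm x y :=
  ws_of_eqvGen x y (Quot.eqvGen_exact h)

theorem pr_eq_iff {f : X ≃ₜ X} {x y : X} : pr f x = pr f y ↔ WS f.symm x y :=
  ⟨ws_of_pr_eq, fun h => Quot.sound ((asym_iff f.symm x y).mpr h)⟩

theorem preimage_image_pr {f : X ≃ₜ X} {A : Set X} (hA : Sat f A) : pr f ⁻¹' (pr f '' A) = A := by
  apply Subset.antisymm
  · rintro x ⟨a, ha, hax⟩
    exact hA a ha x (pr_eq_iff.mp hax)
  · exact subset_preimage_image _ _

theorem sat_preimage (f : X ≃ₜ X) (C : Set (LeafSpace f.symm)) : Sat f (pr f ⁻¹' C) := by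
  intro x hx y hxy
  have h1 : pr f x = pr f y := pr_eq_iff.mpr hxy
  show pr f y ∈ C
  rw [← h1]; exact hx

theorem isClosed_iff_pr {f : X ≃ₜ X} {C : Set (LeafSpace f.symm)} :
    IsClosed C ↔ IsClosed (pr f ⁻¹' C) := isQuotientMap_quot_mk.isClosed_preimage.symm

theorem finite_open {f : X ≃ₜ X} (hfin : {A : Set X | IsClosed A ∧ Sat f A}.Finite) :
    {U : Set (LeafSpace f.symm) | IsOpen U}.Finite := by
  refine Set.Finite.of_injOn (f := fun U => pr f ⁻¹' Uᶜ) ?_ ?_ hfin
  · intro U hU
    have hU' : IsOpen U := hU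
    have hU2 : IsClosed Uᶜ := isClosed_compl_iff.mpr hU'
    exact ⟨isClosed_iff_pr.mp hU2, sat_preimage f _⟩
  · intro U _ V _ hUV
    have h1 := preimage_injective.mpr (Quot.mk_surjective (r := Asym f.symm)) hUV
    exact compl_injective h1

theorem mem_closure_pr {f : X ≃ₜ X} (hcl : ∀ A, Sat f A → Sat f (closure A)) (x y : X) :
    pr f y ∈ closure {pr f x} ↔ y ∈ closure (L f x) := by
  constructor
  · intro h
    have hs : Sat f (closure (L f x)) := hcl _ (sat_L f x)
    have h1 : IsClosed (pr f '' closure (L f x)) := by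
      rw [isClosed_iff_pr, preimage_image_pr hs]
      exact isClosed_closure
    have h2 : closure {pr f x} ⊆ pr f '' closure (L f x) :=
      closure_minimal (singleton_subset_iff.mpr ⟨x, subset_closure (mem_L f x), rfl⟩) h1
    have h3 : y ∈ pr f ⁻¹' (pr f '' closure (L f x)) := h2 h
    rwa [preimage_image_pr hs] at h3
  · intro h
    have h1 : L f x ⊆ pr f ⁻¹' closure {pr f x} := by
      intro z hz
      have : pr f x = pr f z := pr_eq_iff.mpr hz
      show pr f z ∈ closure {pr f x}
      rw [← this]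
      exact subset_closure rfl
    exact closure_minimal h1 (isClosed_iff_pr.mp isClosed_closure) h

theorem minPt_iff {f : X ≃ₜ X} (hcl : ∀ A, Sat f A → Sat f (closure A)) (x : X) :
    pr f x ∈ MinPt (LeafSpace f.symm) ↔ MinLeaf f.symm x := by
  unfold MinLeaf
  simp only [leaf_eq]
  constructor
  · intro h y hy
    have := h (pr f y) ((mem_closure_pr hcl x y).mpr hy)
    exact (mem_closure_pr hcl y x).mp this
  · intro h r hr
    obtain ⟨y, rfl⟩ := Quot.mk_surjective r
    exact (mem_closure_pr hcl y x).mpr (h y ((mem_closure_pr hcl x y).mp hr))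

theorem closure_pr_univ {f : X ≃ₜ X} (hcl : ∀ A, Sat f A → Sat f (closure A)) :
    (∀ r : LeafSpace f.symm, closure {r} = univ) ↔ ∀ x, closure (L f x) = univ := by
  constructor
  · intro h x
    ext y
    rw [← mem_closure_pr hcl, h]
    simp
  · intro h r
    obtain ⟨x, rfl⟩ := Quot.mk_surjective r
    ext q
    obtain ⟨y, rfl⟩ := Quot.mk_surjective q
    rw [mem_closure_pr hcl, h]
    simp

theorem connected_leafSpace [ConnectedSpace X] (f : X ≃ₜ X) : ConnectedSpace (LeafSpace f.symm) :=
  (Quot.mk_surjective (r := Asym f.symm)).connectedSpace continuous_quot_mk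

theorem cl_map {f : X ≃ₜ X} {x y : X} (h : y ∈ closure (L f x)) : f y ∈ closure (L f (f x)) := by
  have h1 : MapsTo f (L f x) (L f (f x)) := by
    intro z hz
    show WS f.symm (f x) (f z)
    have hz' : WS f.symm x z := hz
    exact hz'.map (φ := f) (fun x => by simp)
  exact h1.closure f.continuous h

theorem cl_map_symm {f : X ≃ₜ X} {x y : X} (h : y ∈ closure (L f x)) :
    f.symm y ∈ closure (L f (f.symm x)) := by
  have h1 : MapsTo f.symm (L f x) (L f (f.symm x)) := by
    intro z hz
    show WS f.symm (f.symm x) (f.symm z)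
    have hz' : WS f.symm x z := hz
    exact hz'.map (φ := f.symm) (fun x => rfl)
  exact h1.closure f.symm.continuous h

theorem minLeaf_inv (f : X ≃ₜ X) (x : X) : MinLeaf f.symm (f x) ↔ MinLeaf f.symm x := by
  unfold MinLeaf
  simp only [leaf_eq]
  constructor
  · intro h y hy
    have h1 := cl_map_symm (h (f y) (cl_map hy))
    rwa [f.symm_apply_apply, f.symm_apply_apply] at h1
  · intro h y hy
    have h1 := cl_map_symm hy
    rw [f.symm_apply_apply] at h1
    have h2 := cl_map (h _ h1)
    rwa [f.apply_symm_apply] at h2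

end met

end Pool.Agent.W5h13.LS
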