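import Pool.Agent.W5h13.LS.C2

set_option autoImplicit false
set_option linter.unusedSectionVars false

open scoped Manifold ContDiff Topology Bundle
open Set Filter Bundle

namespace Pool.Agent.W5h13.LS

open Pool.Agent.H789R2.AN Pool.Agent.H721R2 Pool.Agent.TH289

variable {E₀ : Type*} [NormedAddCommGroup E₀] [NormedSpace ℝ E₀] [FiniteDimensional ℝ E₀]
  {M : Type*} [MetricSpace M] [CompactSpace M] [ChartedSpace E₀ M] [IsManifold 𝓘(ℝ, E₀) 1 M]
  {F : Type*} [NormedAddCommGroup F] [NormedSpace ℝ F]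

theorem topTransitive_symm {X : Type*} [TopologicalSpace X] {f : X ≃ₜ X}
    (h : TopTransitive (f : X → X)) : TopTransitive (f.symm : X → X) := by
  intro U V hU hUn hV hVn
  obtain ⟨n, y, ⟨x, hx, rfl⟩, hy⟩ := h V U hV hVn hU hUn
  refine ⟨n, x, ⟨f^[n] x, hy, ?_⟩, hx⟩
  exact (Function.LeftInverse.iterate f.symm_apply_apply n) x

theorem Good.symm {e : M → F} {f : M ≃ₜ M} {Es Eu : M → Submodule ℝ E₀} {N : ℕ} {S : HypSys M F}
    {c : ℝ} (h : Good e f Es Eu N S c) : Good e f.symm Eu Es N S.symm c where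
  one_le := h.one_le
  g := by
    show S.g.symm = _
    rw [h.g, iterHomeo_symm]
  emb := h.emb
  Vs := h.Vu
  Vu := h.Vs
  lp := h.lp.symm
  fixU := fun A hA hs x => inv_symm (h.fixS A hA hs) x
  fixS := fun A hA hs x => inv_symm (h.fixU A hA hs) x

theorem Good.cl {e : M → F} {f : M ≃ₜ M} {Es Eu : M → Submodule ℝ E₀} {N : ℕ} {S : HypSys M F}
    {c : ℝ} (h : Good e f Es Eu N S c) (A : Set M) (hA : Sat f A) : Sat f (closure A) := by
  rw [← h.sat_u] at hA ⊢
  exact sat_cl h.lp hA

theorem Good.finite {e : M → F} {f : M ≃ₜ M} {Es Eu : M → Submodule ℝ E₀} {N : ℕ}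
    {S : HypSys M F} {c : ℝ} (h : Good e f Es Eu N S c) :
    {A : Set M | IsClosed A ∧ Sat f A}.Finite := by
  have h1 := finite_sat h.lp
  simp only [h.sat_u] at h1
  exact h1

theorem Good.finite_open {e : M → F} {f : M ≃ₜ M} {Es Eu : M → Submodule ℝ E₀} {N : ℕ}
    {S : HypSys M F} {c : ℝ} (h : Good e f Es Eu N S c) :
    {U : Set (LeafSpace f.symm) | IsOpen U}.Finite := LS.finite_open h.finite

theorem Good.isOpenMap {e : M → F} {f : M ≃ₜ M} {Es Eu : M → Submodule ℝ E₀} {N : ℕ}
    {S : HypSys M F} {c : ℝ} (h : Good e f Es Eu N S c) : IsOpenMap (pr f) := by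
  intro U hU
  have h1 : IsOpen (pr f ⁻¹' (pr f '' U)) := by
    have h2 := isOpen_saturation h.lp hU
    have h3 : pr f ⁻¹' (pr f '' U) = {y | ∃ x ∈ U, WS S.g.symm x y} := by
      ext y
      constructor
      · rintro ⟨x, hx, hxy⟩
        exact ⟨x, hx, (h.ws_u x y).mpr (pr_eq_iff.mp hxy)⟩
      · rintro ⟨x, hx, hxy⟩
        exact ⟨x, hx, pr_eq_iff.mpr ((h.ws_u x y).mp hxy)⟩
    rw [h3]; exact h2
  exact isQuotientMap_quot_mk.isOpen_preimage.mp h1

/-- every leaf is dense if the minimal points have interior in the leaf space -/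
theorem Good.dense_of_int [ConnectedSpace M] {e : M → F} {f : M ≃ₜ M}
    {Es Eu : M → Submodule ℝ E₀} {N : ℕ} {S : HypSys M F} {c : ℝ} (h : Good e f Es Eu N S c)
    (hint : (interior (MinPt (LeafSpace f.symm))).Nonempty) (x : M) :
    closure (L f x) = univ := by
  have := connected_leafSpace f
  exact (closure_pr_univ h.cl).mp (fun r => indiscrete_of_interior h.finite_open hint r) x

theorem Good.dense_of_trans [ConnectedSpace M] {e : M → F} {f : M ≃ₜ M}
    {Es Eu : M → Submodule ℝ E₀} {N : ℕ} {S : HypSys M F} {c : ℝ} (h : Good e f Es Eu N S c)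
    (ht : TopTransitive (f : M → M)) (x : M) : closure (L f x) = univ := by
  have hD : (pr f ⁻¹' (MinPt (LeafSpace f.symm))) = univ := by
    refine univ_of_trans h.one_le h.lp' ht
      (isClosed_iff_pr.mp (isClosed_minPt h.finite_open)) ?_ ?_ ?_
    · obtain ⟨r, -, hr⟩ := exists_minPt h.finite_open (pr f x)
      obtain ⟨y, rfl⟩ := Quot.mk_surjective r
      exact ⟨y, hr⟩
    · rw [sat_iter f h.one_le]
      exact sat_preimage f _
    · intro y
      show pr f (f y) ∈ MinPt _ ↔ pr f y ∈ MinPt _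
      rw [minPt_iff h.cl, minPt_iff h.cl, minLeaf_inv]
  apply h.dense_of_int
  have h1 : MinPt (LeafSpace f.symm) = univ := by
    ext r
    obtain ⟨y, rfl⟩ := Quot.mk_surjective r
    have : y ∈ pr f ⁻¹' (MinPt (LeafSpace f.symm)) := by rw [hD]; trivial
    exact ⟨fun _ => trivial, fun _ => this⟩
  rw [h1, interior_univ]
  exact ⟨pr f x, trivial⟩

theorem Good.trans_of_dense [ConnectedSpace M] {e : M → F} {f : M ≃ₜ M}
    {Es Eu : M → Submodule ℝ E₀} {N : ℕ} {S : HypSys M F} {c : ℝ} (h : Good e f Es Eu N S c)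
    (hd : ∀ A, IsClosed A → A.Nonempty → Sat f A → A = univ) : TopTransitive (f : M → M) := by
  intro U V hU hUn hV hVn
  obtain ⟨k, hk⟩ := transitive_of_unique h.lp (fun A hA =>
    hd A hA.closed hA.nonempty ((h.sat_u A).mp hA.sat)) U V hU hUn hV hVn
  refine ⟨N * k, ?_⟩
  have h1 : S.g^[k] = f^[N * k] := by
    funext x
    rw [h.g, iterHomeo_iter]
  rwa [h1] at hk

theorem univ_of_dense {f : M ≃ₜ M} (hd : ∀ x, closure (L f x) = univ) {A : Set M}
    (hA : IsClosed A) (hne : A.Nonempty) (hs : Sat f A) : A = univ := by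
  obtain ⟨x, hx⟩ := hne
  have h1 : closure (L f x) ⊆ A := closure_minimal (hs.L_subset hx) hA
  rw [hd x] at h1
  exact univ_subset_iff.mp h1

/-- The criteria. -/
theorem Good.tfae [ConnectedSpace M] {e : M → F} {f : M ≃ₜ M}
    {Es Eu : M → Submodule ℝ E₀} {N : ℕ} {S : HypSys M F} {c : ℝ} (h : Good e f Es Eu N S c) :
    [TopTransitive (f : M → M),
      ∀ x, Dense (Leaf f.symm x),
      (interior {x | MinLeaf f.symm x}).Nonempty,
      ∃ x, MinLeaf f.symm x ∧ MinLeaf f x,
      ∀ q r : LeafSpace f.symm, ∃ φ : LeafSpace f.symm ≃ₜ LeafSpace f.symm, φ q = r,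
      ∃ Γ : Set (LeafSpace f.symm → LeafSpace f.symm),
        (∀ ψ ∈ Γ, Continuous ψ ∧ Function.Surjective ψ) ∧
        ∀ S : Set (LeafSpace f.symm), IsClosed S → S.Nonempty → (∀ ψ ∈ Γ, MapsTo ψ S S) →
          (interior S).Nonempty].TFAE := by
  have hne : Nonempty M := inferInstance
  have := connected_leafSpace f
  have hdense : (∀ x, Dense (Leaf f.symm x)) ↔ ∀ x, closure (L f x) = univ := by
    simp only [leaf_eq, dense_iff_closure_eq]
  tfae_have 1 → 2 := fun ht => hdense.mpr (h.dense_of_trans ht)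
  tfae_have 2 → 1 := fun hd =>
    h.trans_of_dense fun A hA hAn hs => univ_of_dense (hdense.mp hd) hA hAn hs
  tfae_have 2 → 3 := by
    intro hd
    have h1 : {x | MinLeaf f.symm x} = univ := by
      ext x
      simp only [mem_univ, iff_true]
      intro y _
      exact hd y x
    rw [h1, interior_univ]
    exact univ_nonempty
  tfae_have 3 → 2 := by
    rintro ⟨x, hx⟩
    rw [hdense]
    apply h.dense_of_int
    refine ⟨pr f x, ?_⟩
    have h1 : IsOpen (pr f '' interior {x | MinLeaf f.symm x}) := h.isOpenMap _ isOpen_interior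
    refine mem_interior.mpr ⟨_, ?_, h1, x, hx, rfl⟩
    rintro _ ⟨y, hy, rfl⟩
    have hy' : MinLeaf f.symm y := (interior_subset hy : y ∈ {x | MinLeaf f.symm x})
    exact (minPt_iff h.cl y).mpr hy'
  tfae_have 2 → 4 := by
    intro hd
    have ht : TopTransitive (f : M → M) :=
      h.trans_of_dense fun A hA hAn hs => univ_of_dense (hdense.mp hd) hA hAn hs
    have hs := h.symm.dense_of_trans (topTransitive_symm ht)
    obtain ⟨x⟩ := hne
    refine ⟨x, fun y _ => hd y x, fun y _ => ?_⟩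
    rw [leaf_eq', hs y]
    trivial
  tfae_have 4 → 3 := by
    rintro ⟨x, hx1, hx2⟩
    unfold MinLeaf at hx2
    simp only [leaf_eq'] at hx2
    have hU : Sat f (closure (L f x)) := h.cl _ (sat_L f x)
    have hR : Sat f.symm (closure (L f.symm x)) := h.symm.cl _ (sat_L f.symm x)
    have hxA : x ∈ closure (L f x) := subset_closure (mem_L f x)
    have hxR : x ∈ closure (L f.symm x) := subset_closure (mem_L f.symm x)
    have hatt := h.att isClosed_closure ⟨x, hxA⟩ hU
    have key := interior_of_meet h.lp (fun B hB hBs => h.fixS B hB ((h.sat_s B).mp hBs)) hatt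
      (R := closure (L f.symm x)) isClosed_closure ((h.sat_s _).mpr hR) (by
        intro B hB hBs hBR hBn
        obtain ⟨b, hb⟩ := hBn
        have hBs' : Sat f.symm B := (h.sat_s B).mp hBs
        have h1 : x ∈ closure (L f.symm b) := hx2 b (hBR hb)
        have h2 : x ∈ B := closure_minimal (hBs'.L_subset hb) hB h1
        exact closure_minimal (hBs'.L_subset h2) hB) hxA hxR
    refine ⟨x, interior_mono ?_ key⟩
    intro y hy
    have h1 : pr f y ∈ closure {pr f x} := (mem_closure_pr h.cl x y).mpr hy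
    have h2 := minPt_of_mem ((minPt_iff h.cl x).mpr hx1) h1
    exact (minPt_iff h.cl y).mp h2
  tfae_have 2 → 5 := by
    intro hd q r
    exact indiscrete_homeo ((closure_pr_univ h.cl).mpr (hdense.mp hd)) q r
  tfae_have 5 → 6 := by
    intro hh
    refine ⟨{ψ | ∃ φ : LeafSpace f.symm ≃ₜ LeafSpace f.symm, ψ = φ}, ?_, ?_⟩
    · rintro _ ⟨φ, rfl⟩
      exact ⟨φ.continuous, φ.surjective⟩
    · intro S _ hS hinv
      obtain ⟨q, hq⟩ := hS
      have h1 : S = univ := by
        ext r
        simp only [mem_univ, iff_true]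
        obtain ⟨φ, rfl⟩ := hh q r
        exact hinv φ ⟨φ, rfl⟩ hq
      rw [h1, interior_univ]
      exact ⟨q, trivial⟩
  tfae_have 6 → 2 := by
    rintro ⟨Γ, hΓ, hS⟩
    rw [hdense]
    apply h.dense_of_int
    apply hS _ (isClosed_minPt h.finite_open)
    · obtain ⟨x⟩ := hne
      obtain ⟨r, -, hr⟩ := exists_minPt h.finite_open (pr f x)
      exact ⟨r, hr⟩
    · intro ψ hψ q hq
      exact minPt_map h.finite_open (hΓ ψ hψ).1 (hΓ ψ hψ).2 hq
  tfae_finish

end Pool.Agent.W5h13.LS
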