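import Pool.Agent.W5h13.LS.D1
import Pool.Agent.W5h13.LS.E1

set_option autoImplicit false
set_option linter.unusedSectionVars false

open scoped Manifold ContDiff Topology Bundle
open Set Filter Bundle

namespace Pool.Agent.W5h13.LS

open Pool.Agent.H789R2.AN Pool.Agent.H721R2 Pool.Agent.TH289

section met

variable {X : Type*} [MetricSpace X] [CompactSpace X]

theorem closedLeafUnion_iff (f : X ≃ₜ X) (A : Set X) :
    ClosedLeafUnion f.symm A ↔ IsClosed A ∧ Sat f A := by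
  unfold ClosedLeafUnion Sat
  simp only [leaf_eq]
  rfl

/-- Leaf closures coincide when the closed saturated sets do. -/
theorem cl_eq_of_sat {f g : X ≃ₜ X} (hf : ∀ A, Sat f A → Sat f (closure A))
    (hg : ∀ A, Sat g A → Sat g (closure A)) (h : ∀ A, IsClosed A → (Sat f A ↔ Sat g A)) (x : X) :
    closure (L f x) = closure (L g x) := by
  apply Subset.antisymm
  · refine closure_minimal (Sat.L_subset ?_ (subset_closure (mem_L g x))) isClosed_closure
    exact (h _ isClosed_closure).mpr (hg _ (sat_L g x))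
  · refine closure_minimal (Sat.L_subset ?_ (subset_closure (mem_L f x))) isClosed_closure
    exact (h _ isClosed_closure).mp (hf _ (sat_L f x))

theorem minLeaf_iff (f : X ≃ₜ X) (x : X) :
    MinLeaf f.symm x ↔ ∀ y ∈ closure (L f x), x ∈ closure (L f y) := by
  unfold MinLeaf
  simp only [leaf_eq]

/-- Maps of leaf spaces preserve the minimal points. -/
theorem minLeaf_map {f g : X ≃ₜ X} (hf : ∀ A, Sat f A → Sat f (closure A))
    (hg : ∀ A, Sat g A → Sat g (closure A)) (h : ∀ A, IsClosed A → (Sat f A ↔ Sat g A))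
    (hfin : {A : Set X | IsClosed A ∧ Sat f A}.Finite) {γ : X → X}
    (hγ : LeafMap f.symm g.symm γ) {x : X} (hx : MinLeaf f.symm x) : MinLeaf f.symm (γ x) := by
  have hfin' := hfin.to_subtype
  have hmap : ∀ x y, WS f.symm x y → WS g.symm (γ x) (γ y) := by
    intro x y hxy
    rw [← asym_iff] at hxy ⊢
    exact hγ.map x y hxy
  have hmeet : ∀ y, ∃ x, WS g.symm y (γ x) := by
    intro y
    obtain ⟨x, hx⟩ := hγ.meets y
    exact ⟨x, (asym_iff g.symm _ _).mp hx⟩
  let F : {A : Set X | IsClosed A ∧ Sat f A} → {A : Set X | IsClosed A ∧ Sat f A} := fun A =>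
    ⟨γ ⁻¹' A.1, A.2.1.preimage hγ.continuous, fun x hx y hy =>
      ((h A.1 A.2.1).mp A.2.2) _ hx _ (hmap _ _ hy)⟩
  have hsub : ∀ A B : {A : Set X | IsClosed A ∧ Sat f A}, γ ⁻¹' A.1 ⊆ γ ⁻¹' B.1 → A.1 ⊆ B.1 := by
    intro A B hAB y hy
    obtain ⟨z, hz⟩ := hmeet y
    have h1 : γ z ∈ A.1 := ((h A.1 A.2.1).mp A.2.2) y hy _ hz
    have h2 : γ z ∈ B.1 := hAB h1
    exact ((h B.1 B.2.1).mp B.2.2) _ h2 _ hz.symm'
  have hinj : Function.Injective F := by
    intro A B hAB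
    have h1 : γ ⁻¹' A.1 = γ ⁻¹' B.1 := congrArg Subtype.val hAB
    exact Subtype.ext ((hsub A B h1.subset).antisymm (hsub B A h1.symm.subset))
  obtain ⟨D, hD⟩ := (Finite.injective_iff_surjective.mp hinj)
    ⟨closure (L f x), isClosed_closure, hf _ (sat_L f x)⟩
  have hDe : γ ⁻¹' D.1 = closure (L f x) := congrArg Subtype.val hD
  rw [minLeaf_iff] at hx ⊢
  intro r hr
  have h1 : γ x ∈ D.1 := by
    have : x ∈ γ ⁻¹' D.1 := by rw [hDe]; exact subset_closure (mem_L f x)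
    exact this
  have h2 : r ∈ D.1 := closure_minimal (D.2.2.L_subset h1) D.2.1 hr
  obtain ⟨r', hr'⟩ := hmeet r
  have h3 : γ r' ∈ D.1 := ((h D.1 D.2.1).mp D.2.2) r h2 _ hr'
  have h4 : r' ∈ closure (L f x) := by rw [← hDe]; exact h3
  have h5 := hx r' h4
  have h6 : MapsTo γ (L f r') (L g r) := by
    intro z hz
    exact hr'.trans (hmap _ _ hz)
  have h7 := h6.closure hγ.continuous h5
  rwa [← cl_eq_of_sat hf hg h] at h7

end met

section family

variable {E₀ : Type*} [NormedAddCommGroup E₀] [NormedSpace ℝ E₀] [FiniteDimensional ℝ E₀]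
  {M : Type*} [MetricSpace M] [CompactSpace M] [ConnectedSpace M] [ChartedSpace E₀ M]
  [IsManifold 𝓘(ℝ, E₀) 1 M]
  {F : Type*} [NormedAddCommGroup F] [InnerProductSpace ℝ F] [FiniteDimensional ℝ F]

theorem family_met {ι : Type*} [Nonempty ι] {e : M → F} {f : ι → M ≃ₜ M}
    {Es Eu : ι → M → Submodule ℝ E₀} {N : ι → ℕ} {S : ι → HypSys M F} {c : ι → ℝ}
    (hG : ∀ i, Good e (f i) (Es i) (Eu i) (N i) (S i) (c i))
    (heq : ∀ A, IsClosed A → ∀ i j, (Sat (f i) A ↔ Sat (f j) A)) :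
    [∀ i, TopTransitive (f i : M → M),
      ∃ i, TopTransitive (f i : M → M),
      ∀ i x, Dense (Leaf (f i).symm x),
      ∃ i, (interior {x | MinLeaf (f i).symm x}).Nonempty,
      ∃ i j x, MinLeaf (f i).symm x ∧ MinLeaf (f j) x,
      ∃ i, ∀ q r : LeafSpace (f i).symm,
        ∃ φ : LeafSpace (f i).symm ≃ₜ LeafSpace (f i).symm, φ q = r,
      ∃ (Γ : Set (M → M)) (Φ : Set (M ≃ₜ M)),
        (∀ γ ∈ Γ, ∃ i j, LeafMap (f i).symm (f j).symm γ) ∧ (∀ φ ∈ Φ, ∃ i, Contracts (f i) φ) ∧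
        ∀ A : Set M, A.Nonempty → (∀ i, ClosedLeafUnion (f i).symm A) → (∀ γ ∈ Γ, MapsTo γ A A) →
          (∀ φ ∈ Φ, ∀ x ∈ A, Leaf φ x ⊆ A) →
          (interior A).Nonempty ∨ ∃ x ∈ A, ⨆ i, Eu i x = ⊤].TFAE := by
  have hne : Nonempty M := inferInstance
  have hcleq : ∀ i j x, closure (L (f i) x) = closure (L (f j) x) := fun i j x =>
    cl_eq_of_sat (hG i).cl (hG j).cl (fun A hA => heq A hA i j) x
  have hmin : ∀ i j x, MinLeaf (f i).symm x → MinLeaf (f j).symm x := by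
    intro i j x hx
    rw [minLeaf_iff] at hx ⊢
    intro y hy
    rw [← hcleq i j] at hy ⊢
    exact hx y hy
  have hT := fun i => (hG i).tfae
  have hPint : ∀ i, (TopTransitive (f i : M → M) ↔ (interior {x | MinLeaf (f i).symm x}).Nonempty) :=
    fun i => (hT i).out 0 2
  have hPP : ∀ i j, TopTransitive (f i : M → M) → TopTransitive (f j : M → M) := by
    intro i j hi
    rw [hPint] at hi ⊢
    exact hi.mono (interior_mono fun x hx => hmin i j x hx)
  tfae_have 1 → 2 := by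
    intro h
    obtain ⟨i⟩ := ‹Nonempty ι›
    exact ⟨i, h i⟩
  tfae_have 2 → 1 := by
    rintro ⟨i, hi⟩ j
    exact hPP i j hi
  tfae_have 1 → 3 := fun h i => ((hT i).out 0 1).mp (h i)
  tfae_have 3 → 1 := fun h i => ((hT i).out 0 1).mpr (h i)
  tfae_have 1 → 4 := by
    intro h
    obtain ⟨i⟩ := ‹Nonempty ι›
    exact ⟨i, (hPint i).mp (h i)⟩
  tfae_have 4 → 2 := by
    rintro ⟨i, hi⟩
    exact ⟨i, (hPint i).mpr hi⟩
  tfae_have 1 → 5 := by
    intro h
    obtain ⟨i⟩ := ‹Nonempty ι›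
    obtain ⟨x, hx⟩ := ((hT i).out 0 3).mp (h i)
    exact ⟨i, i, x, hx⟩
  tfae_have 5 → 2 := by
    rintro ⟨i, j, x, hx1, hx2⟩
    have h1 : TopTransitive (f j : M → M) ↔ ∃ x, MinLeaf (f j).symm x ∧ MinLeaf (f j) x :=
      (hT j).out 0 3
    exact ⟨j, h1.mpr ⟨x, hmin i j x hx1, hx2⟩⟩
  tfae_have 1 → 6 := by
    intro h
    obtain ⟨i⟩ := ‹Nonempty ι›
    exact ⟨i, ((hT i).out 0 4).mp (h i)⟩
  tfae_have 6 → 2 := by
    rintro ⟨i, hi⟩
    exact ⟨i, ((hT i).out 0 4).mpr hi⟩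
  tfae_have 3 → 7 := by
    intro h
    refine ⟨∅, ∅, by simp, by simp, fun A hA hAu _ _ => Or.inl ?_⟩
    obtain ⟨i⟩ := ‹Nonempty ι›
    obtain ⟨x, hx⟩ := hA
    have h1 : A = univ := by
      apply eq_univ_of_univ_subset
      rw [← (h i x).closure_eq]
      exact closure_minimal ((hAu i).2 x hx) (hAu i).1
    rw [h1, interior_univ]
    exact univ_nonempty
  tfae_have 7 → 4 := by
    rintro ⟨Γ, Φ, hΓ, hΦ, hA⟩
    obtain ⟨i₀⟩ := ‹Nonempty ι›
    refine ⟨i₀, ?_⟩
    set A : Set M := {x | MinLeaf (f i₀).symm x} with hAdef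
    have hApr : A = pr (f i₀) ⁻¹' MinPt (LeafSpace (f i₀).symm) := by
      ext x
      exact (minPt_iff (hG i₀).cl x).symm
    have hAc : IsClosed A := by
      rw [hApr]
      exact isClosed_iff_pr.mp (isClosed_minPt (hG i₀).finite_open)
    have hAs : Sat (f i₀) A := by
      rw [hApr]
      exact sat_preimage _ _
    have hAsi : ∀ i, Sat (f i) A := fun i => (heq A hAc i₀ i).mp hAs
    have hAn : A.Nonempty := by
      obtain ⟨x⟩ := hne
      obtain ⟨r, -, hr⟩ := exists_minPt (hG i₀).finite_open (pr (f i₀) x)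
      obtain ⟨y, rfl⟩ := Quot.mk_surjective r
      refine ⟨y, ?_⟩
      rw [hApr]
      exact hr
    have hΓA : ∀ γ ∈ Γ, MapsTo γ A A := by
      intro γ hγ x hx
      obtain ⟨i, j, hij⟩ := hΓ γ hγ
      have h1 := minLeaf_map (hG i).cl (hG j).cl (fun A hA => heq A hA i j) (hG i).finite hij
        (hmin i₀ i x hx)
      exact hmin i i₀ _ h1
    have hΦA : ∀ φ ∈ Φ, ∀ x ∈ A, Leaf φ x ⊆ A := by
      intro φ hφ x hx y hxy
      obtain ⟨i, hi⟩ := hΦ φ hφ
      refine (hG i).sat_contract (φ := φ) (fun x y h => ?_) (fun x y h => ?_) (fun x y h => ?_) hAc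
        (hAsi i) x hx y ((asym_iff φ x y).mp hxy)
      · exact (asym_iff (f i) x y).mp ((hi.stable x y).mp ((asym_iff (f i) _ _).mpr h))
      · exact (asym_iff (f i).symm _ _).mp
          ((hi.unstable x y).mpr ((asym_iff (f i).symm x y).mpr h))
      · exact (asym_iff φ x y).mp (hi.contr x y ((asym_iff (f i).symm x y).mpr h))
    rcases hA A hAn (fun i => (closedLeafUnion_iff (f i) A).mpr ⟨hAc, hAsi i⟩) hΓA hΦA with h1 | h1
    · exact h1
    · obtain ⟨x, hx, hspan⟩ := h1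
      refine ⟨x, mem_interior_of_span S e (fun j x => by rw [(hG j).emb]) i₀ hAc (fun j => ?_) hx ?_⟩
      · intro x hx y hxy
        exact hAsi j x hx y (((hG j).ws_u x y).mp hxy)
      · have h1 : (⨆ j, (S j).Vu x) =
            Submodule.map (dm E₀ e x).toLinearMap (⊤ : Submodule ℝ E₀) :=
          (iSup_congr fun j => (hG j).Vu x).trans
            (map_span_top (dm E₀ e x).toLinearMap (fun j => Eu j x) hspan)
        rw [h1, (hG i₀).Vs, (hG i₀).Vu]
        exact sup_le (Submodule.map_mono le_top) (Submodule.map_mono le_top)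
  tfae_finish

end family

end Pool.Agent.W5h13.LS
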